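import Pool.Agent.H38.SCD.Q4b
import Pool.Agent.H18.SCD.Q6
import Pool.Agent.H18.SCD.T8

/-!
# Polynomially many pairwise edge-disjoint symmetric chain decompositions
-/

set_option autoImplicit false

namespace Pool.Agent.Results.MP_0ccee8_co.FifthRoot

open Pool.Agent.H18.SCD Pool.Agent.H38.SCD

/-- There is a constant `C` such that for all `k` and `n` with `C k ^ 5 (log n) ^ 4 ≤ n` (here
`log n` is `⌊log₂ n⌋ + 1`) the `n`-cube has `k` pairwise edge-disjoint symmetric chain
decompositions. A decomposition is a set of lists of subsets of `[n]`; consecutive members `a`, `b`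
of a list satisfy `a ⊆ b` and `|b| = |a| + 1`, the cardinalities of its first and its last member
have sum `n`, every subset of `[n]` is in exactly one list of the decomposition, and no pair is
consecutive in a list of one decomposition and in a list of another. -/
theorem result : ∃ C : ℕ, 0 < C ∧ ∀ k n : ℕ, C * k ^ 5 * (Nat.log 2 n + 1) ^ 4 ≤ n →
    ∃ D : Fin k → Set (List (Finset (Fin n))),
      (∀ i : Fin k,
        (∀ c ∈ D i,
          (∃ a b : Finset (Fin n), c.head? = some a ∧ c.getLast? = some b ∧
              a.card + b.card = n) ∧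
          (∀ a b : Finset (Fin n), List.IsInfix [a, b] c →
              a ⊆ b ∧ b.card = a.card + 1)) ∧
        (∀ S : Finset (Fin n), ∃! c : List (Finset (Fin n)), c ∈ D i ∧ S ∈ c)) ∧
      (∀ i j : Fin k, i ≠ j →
        ∀ c ∈ D i, ∀ c' ∈ D j, ∀ a b : Finset (Fin n),
          List.IsInfix [a, b] c → List.IsInfix [a, b] c' → False) := by
  obtain ⟨C, hC, h⟩ := main_quant central_quant
  refine ⟨C, hC, fun k n hn => ?_⟩
  obtain ⟨D, hD, hE⟩ := h k n hn
  exact to_lists D hD hE

end Pool.Agent.Results.MP_0ccee8_co.FifthRoot
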